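import Pool.Agent.H88.Xi4

set_option autoImplicit false

namespace Pool.Agent.Results.MP_c54d0a_an.NonReal

open Pool.Agent.H88.Xi

theorem result : ∃ z : ℂ, z.im ≠ 0 ∧ F (Real.log (91 / 69)) z = 0 :=
  exists_zero

end Pool.Agent.Results.MP_c54d0a_an.NonReal
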